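import Pool.Agent.Lib.MP_641cb6_lc.KH.Comp

/-!
# Dependence of computed values on additions

The additions made by a computation tree are numbered `0, 1, 2, ...` in the order of execution.
For every value and every sum the set of the additions on which it depends is recorded.
-/

set_option autoImplicit false

namespace Pool.Agent.Lib.MP_641cb6_lc.KD

open Pool.Agent.Lib.MP_641cb6_lc.KH

/-- `sums` contains for each addition made so far, `vals` for each value computed so far (the
input included) the set of the numbers of the additions on which it depends. -/
structure Deps where
  sums : List (Finset ℕ)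
  vals : List (Finset ℕ)

/-- the additions on which the value number `i` depends -/
def Deps.val (d : Deps) (i : ℕ) : Finset ℕ := d.vals.getD i ∅

/-- the additions on which the sum number `a` depends, itself included -/
def Deps.sum (d : Deps) (a : ℕ) : Finset ℕ := d.sums.getD a ∅

/-- The effect of an instruction: a product or quotient depends on the additions on which one of
the two values depends, a sum also on the addition that is made. -/
def Deps.next {F : Type} (ins : Instr F) (d : Deps) : Deps :=
  match ins with
  | .const _ => ⟨d.sums, d.vals ++ [∅]⟩
  | .mul i j => ⟨d.sums, d.vals ++ [d.val i ∪ d.val j]⟩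
  | .div i j => ⟨d.sums, d.vals ++ [d.val i ∪ d.val j]⟩
  | .add _ _ i j =>
      ⟨d.sums ++ [insert d.sums.length (d.val i ∪ d.val j)],
        d.vals ++ [insert d.sums.length (d.val i ∪ d.val j)]⟩
  | .test _ => d
  | .answer _ => d

/-- the dependence sets of the tree `T` on inputs from `K ^ n × K` after the outcomes `h` -/
def deps {F : Type} (n : ℕ) (T : CompTree F) : List Bool → Deps
  | [] => ⟨[], List.replicate (n + 1) ∅⟩
  | _ :: h => (deps n T h).next (T h)

/-- the instruction branches on the value number `i` -/
def Branches {F : Type} : Instr F → ℕ → Prop
  | .div _ j, i => i = j
  | .test j, i => i = j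
  | _, _ => False

/-- On the input `x` the tree `T` branches on a value that depends on a sum which depends on
exactly `s` additions, itself included. -/
def UsesSum {F K : Type} [Field F] [Field K] [Algebra F K] (P : K → Prop) (T : CompTree F)
    {n : ℕ} (x : (Fin n → K) × K) (s : ℕ) : Prop :=
  ∃ k i a, Branches (T (T.run P x k).hist) i ∧ a ∈ (deps n T (T.run P x k).hist).val i ∧
    ((deps n T (T.run P x k).hist).sum a).card = s

end Pool.Agent.Lib.MP_641cb6_lc.KD
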