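import Pool.Agent.Lib.MP_641cb6_lc.KD.Defs
import Pool.Agent.Lib.MP_641cb6_lc.KC.Verify

/-!
# Trees all of whose sums depend on few additions; systems of quadratic checks
-/

set_option autoImplicit false

namespace Pool.Agent.Lib.MP_641cb6_lc.KD

open Pool.Agent.Lib.MP_641cb6_lc.KH Pool.Agent.Lib.MP_641cb6_lc.KC

/-- Every sum that the tree makes on inputs from `K ^ n × K`, after any outcomes, depends on at
most `t` additions, itself included. -/
def SumsLe {F : Type} (n t : ℕ) (T : CompTree F) : Prop :=
  ∀ h a, ((deps n T h).sum a).card ≤ t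

/-! ### dependence sets of programs, of opposite trees, of conditional trees -/

/-- the dependence sets after a list of instructions -/
def dxs {F : Type} (d : Deps) (L : List (Instr F)) : Deps := L.foldl (fun d i => d.next i) d

theorem dxs_append {F : Type} (d : Deps) (L M : List (Instr F)) :
    dxs d (L ++ M) = dxs (dxs d L) M := List.foldl_append

theorem dxs_prefix {F : Type} (d : Deps) (L : List (Instr F)) :
    d.sums <+: (dxs d L).sums := by
  induction L generalizing d with
  | nil => exact List.prefix_rfl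
  | cons i L ih =>
    refine List.IsPrefix.trans ?_ (ih (d.next i))
    cases i with
    | add c e i j => exact List.prefix_append _ _
    | _ => exact List.prefix_rfl

theorem sum_of_prefix {d d' : Deps} (h : d.sums <+: d'.sums) {t : ℕ}
    (h' : ∀ a, (d'.sum a).card ≤ t) (a : ℕ) : (d.sum a).card ≤ t := by
  obtain ⟨r, hr⟩ := h
  rcases lt_or_ge a d.sums.length with ha | ha
  · have := h' a
    unfold Deps.sum at this ⊢
    rw [← hr, List.getD_append _ _ _ _ ha] at this
    exact this
  · unfold Deps.sum
    rw [List.getD_eq_default _ _ ha]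
    simp

theorem deps_nil {F : Type} (n : ℕ) (T : CompTree F) :
    deps n T [] = ⟨[], List.replicate (n + 1) ∅⟩ := rfl

theorem deps_cons {F : Type} (n : ℕ) (T : CompTree F) (o : Bool) (h : List Bool) :
    deps n T (o :: h) = (deps n T h).next (T h) := rfl

variable {K : Type} [Field K]

theorem deps_prog (n : ℕ) (L : List (Instr K)) (h : List Bool) :
    deps n (prog L) h = dxs ⟨[], List.replicate (n + 1) ∅⟩ (L.take h.length) := by
  induction h with
  | nil => simp [deps_nil, dxs]
  | cons o h ih =>
    rw [deps_cons, ih, List.length_cons]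
    rcases lt_or_ge h.length L.length with hl | hl
    · rw [prog_lt hl, List.take_add_one, List.getElem?_eq_getElem hl, dxs_append,
        List.getD_eq_getElem _ _ hl]
      rfl
    · rw [prog_ge hl, List.take_of_length_le hl, List.take_of_length_le (by omega)]
      rfl

theorem sumsLe_prog {n t : ℕ} {L : List (Instr K)}
    (h : ∀ a, ((dxs ⟨[], List.replicate (n + 1) ∅⟩ L).sum a).card ≤ t) :
    SumsLe n t (prog L) := by
  intro h' a
  rw [deps_prog]
  refine sum_of_prefix ?_ h a
  conv_rhs => rw [← List.take_append_drop h'.length L, dxs_append]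
  exact dxs_prefix _ _

omit [Field K] in
theorem deps_neg (n : ℕ) (T : CompTree K) (h : List Bool) : deps n (neg T) h = deps n T h := by
  induction h with
  | nil => rfl
  | cons o h ih =>
    rw [deps_cons, deps_cons, ih]
    unfold neg
    cases T h <;> rfl

omit [Field K] in
theorem sumsLe_neg {n t : ℕ} {T : CompTree K} (h : SumsLe n t T) : SumsLe n t (neg T) := by
  intro h' a
  rw [deps_neg]
  exact h h' a

theorem deps_cond (n i : ℕ) (T : Bool → CompTree K) (h : List Bool) (o : Bool) :
    deps n (KC.cond i T) (h ++ [o]) = deps n (T o) h := by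
  induction h with
  | nil => rfl
  | cons o' h ih =>
    rw [List.cons_append, deps_cons, deps_cons, ih, cond_append]

theorem sumsLe_cond {n t i : ℕ} {T : Bool → CompTree K} (h : ∀ o, SumsLe n t (T o)) :
    SumsLe n t (KC.cond i T) := by
  intro h' a
  rcases List.eq_nil_or_concat h' with rfl | ⟨h'', o, rfl⟩
  · rw [deps_nil]
    simp [Deps.sum]
  · rw [List.concat_eq_append, deps_cond]
    exact h o h'' a

/-! ### systems of quadratic checks -/

/-- the check `α u v + β w + γ z`, the letters being values of the input, guesses or `1` -/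
structure Chk (K : Type) where
  α : K
  β : K
  γ : K
  p : ℕ
  q : ℕ
  r : ℕ
  s : ℕ

/-- the positions are less than `N` -/
def Chk.Lt (C : Chk K) (N : ℕ) : Prop := C.p < N ∧ C.q < N ∧ C.r < N ∧ C.s < N

/-- the value that is tested -/
def Chk.eval (C : Chk K) (A : List K) : K :=
  C.α * (A.getD C.p 0 * A.getD C.q 0) + C.β * A.getD C.r 0 + C.γ * A.getD C.s 0

/-- the instructions of a check, at the position `c` -/
def chk (c : ℕ) (C : Chk K) : List (Instr K) :=
  [.mul C.p C.q, .add C.α C.β c C.r, .add 1 C.γ (c + 1) C.s, .test (c + 2)]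

/-- the instructions of a list of checks -/
def chks (c : ℕ) : List (Chk K) → List (Instr K)
  | [] => []
  | C :: Q => chk c C ++ chks (c + 3) Q

theorem chks_length (c : ℕ) (Q : List (Chk K)) : (chks c Q).length = 4 * Q.length := by
  induction Q generalizing c with
  | nil => rfl
  | cons C Q ih =>
    rw [chks, List.length_append, ih, List.length_cons]
    simp only [chk, List.length_cons, List.length_nil]
    omega

theorem chks_noAns (c : ℕ) (Q : List (Chk K)) : ∀ i ∈ chks c Q, NoAns i := by
  induction Q generalizing c with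
  | nil => intro i hi; simp [chks] at hi
  | cons C Q ih =>
    intro i hi
    rw [chks, List.mem_append] at hi
    rcases hi with hi | hi
    · simp only [chk, List.mem_cons, List.not_mem_nil, or_false] at hi
      rcases hi with rfl | rfl | rfl | rfl <;> trivial
    · exact ih _ i hi

theorem chk_spec (P : K → Prop) {A B : List K} {c : ℕ} (hc : (A ++ B).length = c) {C : Chk K}
    (hC : C.Lt A.length) :
    (∃ M : List K, M.length = 3 ∧ xvs (A ++ B) (chk c C) = A ++ (B ++ M)) ∧
      (xos P (A ++ B) (chk c C) ↔ P (C.eval A)) := by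
  obtain ⟨h1, h2, h3, h4⟩ := hC
  have e : ∀ {i : ℕ} (B : List K), i < A.length → (A ++ B).getD i 0 = A.getD i 0 :=
    fun B hi => getD_pre hi
  set u := A.getD C.p 0 * A.getD C.q 0 with hu
  set v := C.α * u + C.β * A.getD C.r 0 with hv
  have s1 : xv (A ++ B) (.mul C.p C.q) = (A ++ B) ++ [u] := by
    simp only [xv, e _ h1, e _ h2]
    rw [hu]
  have s2 : xv ((A ++ B) ++ [u]) (.add C.α C.β c C.r) = (A ++ B) ++ [u, v] := by
    have e1 : ((A ++ B) ++ [u]).getD c 0 = u := getD_off0 hc
    have e2 : ((A ++ B) ++ [u]).getD C.r 0 = A.getD C.r 0 := by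
      rw [List.append_assoc, e _ h3]
    simp only [xv, e1, e2]
    rw [hv]
    simp
  have s3 : xv ((A ++ B) ++ [u, v]) (.add 1 C.γ (c + 1) C.s) =
      (A ++ B) ++ [u, v, C.eval A] := by
    have e1 : ((A ++ B) ++ [u, v]).getD (c + 1) 0 = v := by
      rw [getD_off hc]
      rfl
    have e2 : ((A ++ B) ++ [u, v]).getD C.s 0 = A.getD C.s 0 := by
      rw [List.append_assoc, e _ h4]
    simp only [xv, e1, e2, Chk.eval]
    rw [hv, hu]
    simp
  have s4 : ((A ++ B) ++ [u, v, C.eval A]).getD (c + 2) 0 = C.eval A := by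
    rw [getD_off hc]
    rfl
  constructor
  · refine ⟨[u, v, C.eval A], rfl, ?_⟩
    unfold chk xvs
    simp only [List.foldl_cons, List.foldl_nil]
    rw [s1, s2, s3]
    show (A ++ B) ++ [u, v, C.eval A] = _
    rw [List.append_assoc]
  · unfold chk
    simp only [xos, s1, s2, s3, xo, true_and, and_true, s4]

theorem chks_spec (P : K → Prop) {A : List K} (Q : List (Chk K)) (hQ : ∀ C ∈ Q, C.Lt A.length)
    {B : List K} {c : ℕ} (hc : (A ++ B).length = c) :
    xos P (A ++ B) (chks c Q) ↔ ∀ C ∈ Q, P (C.eval A) := by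
  induction Q generalizing B c with
  | nil => simp [chks, xos]
  | cons C Q ih =>
    obtain ⟨⟨M, hM, h1⟩, h2⟩ := chk_spec P hc (hQ C (List.mem_cons_self))
    rw [chks, xos_append, h2, h1, ih (fun D hD => hQ D (List.mem_cons_of_mem _ hD))
      (B := B ++ M) (c := c + 3) (by
        rw [← List.append_assoc, List.length_append, hc, hM])]
    simp

/-- the dependence sets after a list of checks -/
theorem chks_deps {N : ℕ} (Q : List (Chk K)) (hQ : ∀ C ∈ Q, C.Lt N) {d : Deps} {c : ℕ}
    (hc : d.vals.length = c) (hN : N ≤ c) (h0 : ∀ i < N, d.val i = ∅)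
    (h2 : ∀ a, (d.sum a).card ≤ 2) (a : ℕ) : ((dxs d (chks c Q)).sum a).card ≤ 2 := by
  induction Q generalizing d c with
  | nil => exact h2 a
  | cons C Q ih =>
    rw [chks, dxs_append]
    obtain ⟨k1, k2, k3, k4⟩ := hQ C List.mem_cons_self
    set σ := d.sums.length with hσ
    have g1 : ∀ {i : ℕ} (L : List (Finset ℕ)), i < N →
        (d.vals ++ L).getD i ∅ = ∅ := by
      intro i L hi
      rw [List.getD_append _ _ _ _ (by omega)]
      exact h0 i hi
    have e1 : dxs d (chk c C) = ⟨d.sums ++ [{σ}, {σ + 1, σ}], d.vals ++ [∅, {σ}, {σ + 1, σ}]⟩ := by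
      unfold chk dxs
      simp only [List.foldl_cons, List.foldl_nil, Deps.next, Deps.val]
      have a1 : d.vals.getD C.p ∅ = ∅ := h0 _ k1
      have a2 : d.vals.getD C.q ∅ = ∅ := h0 _ k2
      rw [a1, a2]
      have a3 : (d.vals ++ [∅ ∪ ∅]).getD c ∅ = ∅ := by
        rw [List.getD_append_right _ _ _ _ (by omega), hc, Nat.sub_self]
        simp
      rw [a3, g1 _ k3]
      have a4 : (d.vals ++ [∅ ∪ ∅] ++ [insert σ (∅ ∪ ∅)]).getD (c + 1) ∅ = {σ} := by
        rw [List.append_assoc, List.getD_append_right _ _ _ _ (by omega), hc,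
          Nat.add_sub_cancel_left]
        simp
      have a5 : (d.vals ++ [∅ ∪ ∅] ++ [insert σ (∅ ∪ ∅)]).getD C.s ∅ = ∅ := by
        rw [List.append_assoc, g1 _ k4]
      rw [a4, a5]
      simp [← hσ]
    rw [e1]
    refine ih (fun D hD => hQ D (List.mem_cons_of_mem _ hD)) ?_ (by omega) ?_ ?_
    · simp [hc]
    · intro i hi
      exact g1 _ hi
    · intro b
      rcases lt_trichotomy b σ with hb | hb | hb
      · unfold Deps.sum
        rw [List.getD_append _ _ _ _ hb]
        exact h2 b
      · unfold Deps.sum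
        rw [List.getD_append_right _ _ _ _ (by omega), hb, ← hσ, Nat.sub_self]
        simp
      · unfold Deps.sum
        rw [List.getD_append_right _ _ _ _ (by omega), ← hσ]
        obtain ⟨e, he⟩ : ∃ e, b - σ = e + 1 := ⟨b - σ - 1, by omega⟩
        rw [he]
        cases e with
        | zero =>
          simp only [List.getD_cons_succ, List.getD_cons_zero]
          exact Finset.card_le_two
        | succ e => simp

/-- the tree that makes the checks `Q` on `N + 1` input values, the value number `N + 1` is `1` -/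
noncomputable def sysTree (N : ℕ) (Q : List (Chk K)) : CompTree K :=
  prog ([.const 1] ++ chks (N + 2) Q)

theorem sumsLe_sys {N : ℕ} {Q : List (Chk K)} (hQ : ∀ C ∈ Q, C.Lt (N + 2)) :
    SumsLe N 2 (sysTree N Q) := by
  refine sumsLe_prog fun a => ?_
  rw [dxs_append]
  refine chks_deps (N := N + 2) Q hQ ?_ le_rfl ?_ ?_ a
  · simp [dxs, Deps.next]
  · intro i _
    have : (dxs ⟨[], List.replicate (N + 1) ∅⟩ [Instr.const (1 : K)]).vals =
        List.replicate (N + 2) ∅ := by
      simp [dxs, Deps.next, List.replicate_succ']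
    unfold Deps.val
    rw [this, List.getD_eq_getElem?_getD]
    by_cases hi : i < N + 2
    · simp [hi]
    · simp [hi]
  · intro b
    simp [dxs, Deps.next, Deps.sum]

/-- the answer of the tree -/
theorem sys_answer (P : K → Prop) {N : ℕ} {Q : List (Chk K)} (hQ : ∀ C ∈ Q, C.Lt (N + 2))
    (x : (Fin N → K) × K) {t : ℕ} (ht : 4 * Q.length + 1 ≤ t) : ∃ b : Bool,
      (b = true ↔ ∀ C ∈ Q, P (C.eval (List.ofFn x.1 ++ [x.2] ++ [1]))) ∧
      sysTree N Q ((sysTree N Q).run P x t).hist = .answer b := by
  have hno : ∀ i ∈ ([.const 1] ++ chks (N + 2) Q : List (Instr K)), NoAns i := by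
    intro i hi
    rw [List.mem_append] at hi
    rcases hi with hi | hi
    · rw [List.mem_singleton] at hi
      subst hi
      trivial
    · exact chks_noAns _ _ i hi
  have hlen : ([.const 1] ++ chks (N + 2) Q : List (Instr K)).length = 4 * Q.length + 1 := by
    rw [List.length_append, chks_length, List.length_singleton]
    omega
  obtain ⟨b, h1, h2, -⟩ := prog_answer P hno x
  obtain ⟨j, rfl⟩ := Nat.exists_eq_add_of_le ht
  rw [hlen] at h2
  refine ⟨b, ?_, ?_⟩
  · rw [h1, xos_append]
    have e1 : xvs (List.ofFn x.1 ++ [x.2]) [Instr.const (1 : K)] =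
      (List.ofFn x.1 ++ [x.2] ++ [1]) ++ [] := by simp [xvs, xv]
    have hl : (List.ofFn x.1 ++ [x.2] ++ [1] : List K).length = N + 2 := by simp
    rw [e1, chks_spec P Q (by rw [hl]; exact hQ) (by simp)]
    simp [xos, xo]
  · have h3 : sysTree N Q ((sysTree N Q).run P x (4 * Q.length + 1)).hist = .answer b := h2
    rw [Nat.add_comm] at h3
    rw [Nat.add_comm (4 * Q.length) 1, run_stay h3]
    exact h3

end Pool.Agent.Lib.MP_641cb6_lc.KD
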