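import Pool.Agent.Lib.MP_641cb6_lc.KD.Defs
import Pool.Agent.Lib.MP_641cb6_lc.KC.Prog

/-!
# Dependence sets of straight-line programs
-/

set_option autoImplicit false

namespace Pool.Agent.Lib.MP_641cb6_lc.KD

open Pool.Agent.Lib.MP_641cb6_lc.KH (CompTree Instr)
open Pool.Agent.Lib.MP_641cb6_lc.KC (prog)

/-- the dependence sets after a list of instructions -/
def Deps.nexts {F : Type} (d : Deps) (L : List (Instr F)) : Deps := L.foldl (fun d i => d.next i) d

theorem Deps.nexts_append {F : Type} (d : Deps) (L M : List (Instr F)) :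
    d.nexts (L ++ M) = (d.nexts L).nexts M := List.foldl_append

theorem deps_progC {K : Type} [Field K] (n : ℕ) (L : List (Instr K)) (h : List Bool) :
    deps n (prog L) h = (⟨[], List.replicate (n + 1) ∅⟩ : Deps).nexts (L.take h.length) := by
  induction h with
  | nil => rfl
  | cons o h ih =>
    show (deps n (prog L) h).next (prog L h) = _
    rw [ih]
    rcases Nat.lt_or_ge h.length L.length with h1 | h1
    · have h2 : L.take (h.length + 1) = L.take h.length ++ [L[h.length]] := by
        rw [List.take_add_one, List.getElem?_eq_getElem h1]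
        rfl
      rw [KC.prog_lt h1, List.getD_eq_getElem _ _ h1, List.length_cons, h2, Deps.nexts_append]
      rfl
    · rw [KC.prog_ge h1, List.length_cons, List.take_of_length_le h1,
        List.take_of_length_le (by omega)]
      rfl

section getD

variable {A B : List (Finset ℕ)} {a : ℕ}

theorem getD_off (ha : A.length = a) (i : ℕ) : (A ++ B).getD (a + i) ∅ = B.getD i ∅ := by
  subst ha
  rw [List.getD_append_right _ _ _ _ (by omega), Nat.add_sub_cancel_left]

theorem getD_off0 (ha : A.length = a) : (A ++ B).getD a ∅ = B.getD 0 ∅ := getD_off ha 0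

theorem getD_pre {i : ℕ} (ha : i < A.length) : (A ++ B).getD i ∅ = A.getD i ∅ :=
  List.getD_append _ _ _ _ ha

end getD

/-- all sums depend on at most `t` additions -/
def Deps.Le (t : ℕ) (d : Deps) : Prop := ∀ A ∈ d.sums, A.card ≤ t

theorem Deps.Le.sum {t : ℕ} {d : Deps} (h : d.Le t) (a : ℕ) : (d.sum a).card ≤ t := by
  unfold Deps.sum
  rcases Nat.lt_or_ge a d.sums.length with h1 | h1
  · rw [List.getD_eq_getElem _ _ h1]
    exact h _ (List.getElem_mem h1)
  · rw [List.getD_eq_default _ _ h1]
    simp

/-- instructions only add sums -/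
theorem Deps.next_sums {F : Type} (d : Deps) (i : Instr F) : ∃ M, (d.next i).sums = d.sums ++ M := by
  cases i with
  | add c e i j => exact ⟨_, rfl⟩
  | const c => exact ⟨[], (List.append_nil _).symm⟩
  | mul i j => exact ⟨[], (List.append_nil _).symm⟩
  | div i j => exact ⟨[], (List.append_nil _).symm⟩
  | test i => exact ⟨[], (List.append_nil _).symm⟩
  | answer b => exact ⟨[], (List.append_nil _).symm⟩

theorem Deps.nexts_sums {F : Type} (d : Deps) (L : List (Instr F)) :
    ∃ M, (d.nexts L).sums = d.sums ++ M := by
  induction L generalizing d with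
  | nil => exact ⟨[], (List.append_nil _).symm⟩
  | cons i L ih =>
    obtain ⟨M, hM⟩ := d.next_sums i
    obtain ⟨M', hM'⟩ := ih (d.next i)
    refine ⟨M ++ M', ?_⟩
    show ((d.next i).nexts L).sums = _
    rw [hM', hM, List.append_assoc]

/-- if all sums of the program depend on at most `t` additions, then so do the sums at any time -/
theorem le_of_prog {K : Type} [Field K] {n t : ℕ} {L : List (Instr K)}
    (h : ((⟨[], List.replicate (n + 1) ∅⟩ : Deps).nexts L).Le t) (g : List Bool) :
    (deps n (prog L) g).Le t := by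
  rw [deps_progC]
  intro A hA
  apply h
  obtain ⟨M, hM⟩ := ((⟨[], List.replicate (n + 1) ∅⟩ : Deps).nexts
    (L.take g.length)).nexts_sums (L.drop g.length)
  rw [← Deps.nexts_append, List.take_append_drop] at hM
  rw [hM]
  exact List.mem_append_left _ hA

theorem UsesSum.le {F K : Type} [Field F] [Field K] [Algebra F K] {P : K → Prop}
    {T : CompTree F} {n : ℕ} {x : (Fin n → K) × K} {s t : ℕ} (h : UsesSum P T x s)
    (ht : ∀ g, (deps n T g).Le t) : s ≤ t := by
  obtain ⟨k, i, a, -, -, rfl⟩ := h
  exact (ht _).sum a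

end Pool.Agent.Lib.MP_641cb6_lc.KD
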