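import Pool.Agent.Lib.MP_641cb6_lc.KD.Local
import Pool.Agent.Lib.MP_641cb6_lc.Real2

/-!
# Verification of `RootSum n m` and of its complement with local checks

All iterates and all partial sums are guessed; every check is quadratic in few values.
-/

set_option autoImplicit false

namespace Pool.Agent.Lib.MP_641cb6_lc.KD

open Pool.Agent.Lib.MP_641cb6_lc Pool.Agent.Lib.MP_641cb6_lc.KH Pool.Agent.Lib.MP_641cb6_lc.KC

namespace RL

/-- two checks: `C = 0` -/
def eqs (α β γ : ℝ) (p q r s : ℕ) : List (Chk ℝ) :=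
  [⟨α, β, γ, p, q, r, s⟩, ⟨-α, -β, -γ, p, q, r, s⟩]

/-- position of the `j`-th iterate of `y i` -/
def py (n m i j : ℕ) : ℕ := n + (i * (m + 1) + j)

/-- position of the sum of the first `i` values -/
def pz (n m i : ℕ) : ℕ := n + (n * (m + 1) + i)

theorem py_lt {n m i j : ℕ} (hi : i < n) (hj : j ≤ m) : py n m i j < n + n * (m + 1) := by
  unfold py
  have h1 : i * (m + 1) + j < (i + 1) * (m + 1) := by
    rw [Nat.succ_mul]
    omega
  have h2 : (i + 1) * (m + 1) ≤ n * (m + 1) := Nat.mul_le_mul_right _ hi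
  omega

/-- the checks common to both verifications; `o` is the position of the constant `1` -/
def base (n m o : ℕ) : List (Chk ℝ) :=
  ((List.range n).flatMap fun i => (List.range m).flatMap fun j =>
    eqs 2 (-1) (-1) (py n m i j) (py n m i j) o (py n m i (j + 1))) ++
  ((List.range n).flatMap fun i => eqs 1 (-1) 0 (py n m i m) o i 0) ++
  eqs 1 0 0 (pz n m 0) o 0 0 ++
  ((List.range n).flatMap fun i => eqs 1 1 (-1) (pz n m i) o (py n m i 0) (pz n m (i + 1)))

/-- the number of guesses without the extra ones -/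
def ng (n m : ℕ) : ℕ := n * (m + 1) + (n + 1)

theorem base_length (n m o : ℕ) : (base n m o).length = 2 * (m * n) + 4 * n + 2 := by
  unfold base eqs
  simp only [List.length_append, List.length_flatMap, List.length_cons, List.length_nil,
    List.map_const', List.length_range, List.sum_replicate, smul_eq_mul]
  ring

theorem base_lt {n m o N : ℕ} (ho : o < N) (hN : n + ng n m ≤ N) :
    ∀ C ∈ base n m o, C.Lt N := by
  unfold ng at hN
  intro C hC
  simp only [base, eqs, List.mem_append, List.mem_flatMap, List.mem_range, List.mem_cons,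
    List.not_mem_nil, or_false] at hC
  rcases hC with ((⟨i, hi, j, hj, hC⟩ | ⟨i, hi, hC⟩) | hC) | ⟨i, hi, hC⟩
  · have h1 := py_lt hi hj.le
    have h2 : py n m i (j + 1) < n + n * (m + 1) := py_lt hi hj
    rcases hC with rfl | rfl <;> refine ⟨?_, ?_, ?_, ?_⟩ <;> dsimp only <;> omega
  · have h1 := py_lt hi (le_refl m)
    rcases hC with rfl | rfl <;> refine ⟨?_, ?_, ?_, ?_⟩ <;> dsimp only <;> omega
  · have h1 : pz n m 0 < N := by unfold pz; omega
    rcases hC with rfl | rfl <;> refine ⟨?_, ?_, ?_, ?_⟩ <;> dsimp only <;> omega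
  · have h1 := py_lt hi (Nat.zero_le m)
    have h2 : pz n m i < N := by unfold pz; omega
    have h3 : pz n m (i + 1) < N := by unfold pz; omega
    rcases hC with rfl | rfl <;> refine ⟨?_, ?_, ?_, ?_⟩ <;> dsimp only <;> omega

/-- a check and its opposite -/
theorem eqs_iff (A : List ℝ) (α β γ : ℝ) (p q r s : ℕ) :
    (∀ C ∈ eqs α β γ p q r s, 0 ≤ C.eval A) ↔
      α * (A.getD p 0 * A.getD q 0) + β * A.getD r 0 + γ * A.getD s 0 = 0 := by
  simp only [eqs, List.mem_cons, List.not_mem_nil, or_false, forall_eq_or_imp, forall_eq,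
    Chk.eval]
  constructor
  · rintro ⟨h1, h2⟩
    linarith
  · intro h
    constructor <;> linarith

/-- the meaning of the common checks -/
theorem base_iff {n m o : ℕ} (A : List ℝ) (ho : A.getD o 0 = 1) :
    (∀ C ∈ base n m o, 0 ≤ C.eval A) ↔
      (∀ i < n, ∀ j < m, A.getD (py n m i (j + 1)) 0 = dbl (A.getD (py n m i j) 0)) ∧
      (∀ i < n, A.getD (py n m i m) 0 = A.getD i 0) ∧
      A.getD (pz n m 0) 0 = 0 ∧
      (∀ i < n, A.getD (pz n m (i + 1)) 0 = A.getD (pz n m i) 0 + A.getD (py n m i 0) 0) := by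
  have h1 : (∀ C ∈ (List.range n).flatMap fun i => (List.range m).flatMap fun j =>
      eqs 2 (-1) (-1) (py n m i j) (py n m i j) o (py n m i (j + 1)), 0 ≤ C.eval A) ↔
      ∀ i < n, ∀ j < m, A.getD (py n m i (j + 1)) 0 = dbl (A.getD (py n m i j) 0) := by
    constructor
    · intro h i hi j hj
      have := (eqs_iff A _ _ _ _ _ _ _).1 fun C hC => h C
        (List.mem_flatMap.2 ⟨i, List.mem_range.2 hi, List.mem_flatMap.2 ⟨j, List.mem_range.2 hj, hC⟩⟩)
      rw [ho] at this
      unfold dbl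
      linarith
    · intro h C hC
      obtain ⟨i, hi, hC⟩ := List.mem_flatMap.1 hC
      obtain ⟨j, hj, hC⟩ := List.mem_flatMap.1 hC
      refine (eqs_iff A _ _ _ _ _ _ _).2 ?_ C hC
      rw [ho, h i (List.mem_range.1 hi) j (List.mem_range.1 hj)]
      unfold dbl
      ring
  have h2 : (∀ C ∈ (List.range n).flatMap fun i => eqs 1 (-1) 0 (py n m i m) o i 0,
      0 ≤ C.eval A) ↔ ∀ i < n, A.getD (py n m i m) 0 = A.getD i 0 := by
    constructor
    · intro h i hi
      have := (eqs_iff A _ _ _ _ _ _ _).1 fun C hC => h C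
        (List.mem_flatMap.2 ⟨i, List.mem_range.2 hi, hC⟩)
      rw [ho] at this
      linarith
    · intro h C hC
      obtain ⟨i, hi, hC⟩ := List.mem_flatMap.1 hC
      refine (eqs_iff A _ _ _ _ _ _ _).2 ?_ C hC
      rw [ho, h i (List.mem_range.1 hi)]
      ring
  have h3 : (∀ C ∈ eqs 1 0 0 (pz n m 0) o 0 0, 0 ≤ C.eval A) ↔ A.getD (pz n m 0) 0 = 0 := by
    rw [eqs_iff, ho]
    simp
  have h4 : (∀ C ∈ (List.range n).flatMap fun i =>
      eqs 1 1 (-1) (pz n m i) o (py n m i 0) (pz n m (i + 1)), 0 ≤ C.eval A) ↔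
      ∀ i < n, A.getD (pz n m (i + 1)) 0 = A.getD (pz n m i) 0 + A.getD (py n m i 0) 0 := by
    constructor
    · intro h i hi
      have := (eqs_iff A _ _ _ _ _ _ _).1 fun C hC => h C
        (List.mem_flatMap.2 ⟨i, List.mem_range.2 hi, hC⟩)
      rw [ho] at this
      linarith
    · intro h C hC
      obtain ⟨i, hi, hC⟩ := List.mem_flatMap.1 hC
      refine (eqs_iff A _ _ _ _ _ _ _).2 ?_ C hC
      rw [ho, h i (List.mem_range.1 hi)]
      ring
  rw [← h1, ← h2, ← h3, ← h4]
  simp only [base, List.mem_append, or_imp, forall_and, and_assoc]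

theorem iter_of_step {m : ℕ} {Y : ℕ → ℝ} (h : ∀ j < m, Y (j + 1) = dbl (Y j)) (j : ℕ)
    (hj : j ≤ m) : Y j = dbl^[j] (Y 0) := by
  induction j with
  | zero => rfl
  | succ j ih => rw [h j (by omega), ih (by omega), Function.iterate_succ_apply']

theorem sum_of_step {n : ℕ} {Z Y : ℕ → ℝ} (h0 : Z 0 = 0) (h : ∀ i < n, Z (i + 1) = Z i + Y i) :
    Z n = ∑ i : Fin n, Y i := by
  have key : ∀ i ≤ n, Z i = ∑ l ∈ Finset.range i, Y l := by
    intro i
    induction i with
    | zero => intro _; simp [h0]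
    | succ i ih =>
      intro hi
      rw [h i (by omega), ih (by omega), Finset.sum_range_succ]
  rw [key n le_rfl, Finset.sum_range]

/-- the guesses for `y` -/
noncomputable def gs (n m : ℕ) (y : ℕ → ℝ) (l : ℕ) : ℝ :=
  if l < n * (m + 1) then dbl^[l % (m + 1)] (y (l / (m + 1)))
  else ∑ i ∈ Finset.range (l - n * (m + 1)), y i

theorem gs_y {n m : ℕ} (y : ℕ → ℝ) {i j : ℕ} (hi : i < n) (hj : j ≤ m) :
    gs n m y (i * (m + 1) + j) = dbl^[j] (y i) := by
  have h1 := py_lt hi hj
  unfold py at h1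
  unfold gs
  rw [if_pos (by omega)]
  have h2 : (i * (m + 1) + j) % (m + 1) = j := by
    rw [Nat.mul_comm, Nat.mul_add_mod]
    exact Nat.mod_eq_of_lt (by omega)
  have h3 : (i * (m + 1) + j) / (m + 1) = i := by
    rw [Nat.mul_comm, Nat.mul_add_div (by omega), Nat.div_eq_of_lt (by omega), add_zero]
  rw [h2, h3]

theorem gs_z {n m : ℕ} (y : ℕ → ℝ) (i : ℕ) :
    gs n m y (n * (m + 1) + i) = ∑ l ∈ Finset.range i, y l := by
  unfold gs
  rw [if_neg (by omega), Nat.add_sub_cancel_left]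

/-- the values of the guesses satisfy the common checks -/
theorem base_gs {n m k : ℕ} (hk : ng n m ≤ k) (a : Fin n → ℝ) (b : ℝ) (y : ℕ → ℝ)
    (u : Fin k → ℝ) (hu : ∀ l (hl : l < k), l < ng n m → u ⟨l, hl⟩ = gs n m y l)
    (hy : ∀ i : Fin n, dbl^[m] (y i) = a i) :
    (∀ i < n, ∀ j ≤ m, (bse a u b).getD (py n m i j) 0 = dbl^[j] (y i)) ∧
    (∀ i ≤ n, (bse a u b).getD (pz n m i) 0 = ∑ l ∈ Finset.range i, y l) ∧
    ∀ C ∈ base n m (n + k + 1), 0 ≤ C.eval (bse a u b) := by
  unfold ng at hk hu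
  have e1 : ∀ i < n, ∀ j ≤ m, (bse a u b).getD (py n m i j) 0 = dbl^[j] (y i) := by
    intro i hi j hj
    have h1 := py_lt hi hj
    unfold py at h1
    rw [← gs_y y hi hj, ← hu (i * (m + 1) + j) (by omega) (by omega)]
    exact bse_y a u b ⟨i * (m + 1) + j, by omega⟩
  have e2 : ∀ i ≤ n, (bse a u b).getD (pz n m i) 0 = ∑ l ∈ Finset.range i, y l := by
    intro i hi
    rw [← gs_z (m := m) (n := n) y i, ← hu (n * (m + 1) + i) (by omega) (by omega)]
    exact bse_y a u b ⟨n * (m + 1) + i, by omega⟩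
  refine ⟨e1, e2, (base_iff _ (bse_one a u b)).2 ⟨?_, ?_, ?_, ?_⟩⟩
  · intro i hi j hj
    rw [e1 i hi _ (by omega), e1 i hi _ hj.le, Function.iterate_succ_apply']
  · intro i hi
    rw [e1 i hi _ le_rfl]
    exact (hy ⟨i, hi⟩).trans (bse_a a u b ⟨i, hi⟩).symm
  · rw [e2 0 (by omega)]
    simp
  · intro i hi
    rw [e2 (i + 1) (by omega), e2 i hi.le, e1 i hi 0 (by omega), Finset.sum_range_succ]
    rfl

/-- what the common checks say -/
theorem base_says {n m k : ℕ} (hk : ng n m ≤ k) (a : Fin n → ℝ) (b : ℝ) (u : Fin k → ℝ)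
    (h : ∀ C ∈ base n m (n + k + 1), 0 ≤ C.eval (bse a u b)) :
    (∀ i < n, ∀ j ≤ m, (bse a u b).getD (py n m i j) 0 =
      dbl^[j] ((bse a u b).getD (py n m i 0) 0)) ∧
    (∀ i : Fin n, dbl^[m] ((bse a u b).getD (py n m i 0) 0) = a i) ∧
    (bse a u b).getD (pz n m n) 0 = ∑ i : Fin n, (bse a u b).getD (py n m i 0) 0 := by
  obtain ⟨h1, h2, h3, h4⟩ := (base_iff _ (bse_one a u b)).1 h
  have h5 : ∀ i < n, ∀ j ≤ m, (bse a u b).getD (py n m i j) 0 =
      dbl^[j] ((bse a u b).getD (py n m i 0) 0) := fun i hi j hj =>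
    iter_of_step (Y := fun j => (bse a u b).getD (py n m i j) 0) (h1 i hi) j hj
  refine ⟨h5, fun i => ?_, ?_⟩
  · rw [← h5 i i.isLt m le_rfl, h2 i i.isLt]
    exact bse_a a u b i
  · exact sum_of_step (Z := fun i => (bse a u b).getD (pz n m i) 0)
      (Y := fun i => (bse a u b).getD (py n m i 0) 0) h3 h4

/-! ### the set -/

/-- the checks for `RootSum n m`, with `ng n m` guesses -/
def sysV (n m : ℕ) : List (Chk ℝ) :=
  base n m (n + ng n m + 1) ++
  ((List.range n).flatMap fun i =>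
    [⟨-1, 1, 0, py n m i 0, py n m i 0, n + ng n m + 1, 0⟩]) ++
  [⟨1, -1, 0, pz n m n, n + ng n m + 1, n + ng n m, 0⟩]

theorem sysV_lt (n m : ℕ) : ∀ C ∈ sysV n m, C.Lt (n + ng n m + 2) := by
  intro C hC
  simp only [sysV, List.mem_append, List.mem_flatMap, List.mem_range, List.mem_cons,
    List.not_mem_nil, or_false] at hC
  rcases hC with (hC | ⟨i, hi, rfl⟩) | rfl
  · exact base_lt (by omega) (by omega) C hC
  · have h1 := py_lt hi (Nat.zero_le m)
    unfold ng
    refine ⟨?_, ?_, ?_, ?_⟩ <;> dsimp only <;> omega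
  · unfold ng pz
    refine ⟨?_, ?_, ?_, ?_⟩ <;> dsimp only <;> omega

theorem sysV_length (n m : ℕ) : 4 * (sysV n m).length + 1 ≤ 30 * (m + 1) * (n + 1) := by
  have h1 : (sysV n m).length = 2 * (m * n) + 5 * n + 3 := by
    unfold sysV
    simp only [List.length_append, base_length, List.length_flatMap, List.length_cons,
      List.length_nil, List.map_const', List.length_range, List.sum_replicate, smul_eq_mul]
    ring
  rw [h1]
  nlinarith [Nat.zero_le (m * n)]

theorem sysV_iff {n m : ℕ} (a : Fin n → ℝ) (u : Fin (ng n m) → ℝ) (b : ℝ) :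
    (∀ C ∈ sysV n m, 0 ≤ C.eval (bse a u b)) ↔
      (∀ C ∈ base n m (n + ng n m + 1), 0 ≤ C.eval (bse a u b)) ∧
      (∀ i < n, (bse a u b).getD (py n m i 0) 0 ^ 2 ≤ 1) ∧
      b ≤ (bse a u b).getD (pz n m n) 0 := by
  have h2 : (∀ C ∈ (List.range n).flatMap fun i =>
      [(⟨-1, 1, 0, py n m i 0, py n m i 0, n + ng n m + 1, 0⟩ : Chk ℝ)],
      0 ≤ C.eval (bse a u b)) ↔ ∀ i < n, (bse a u b).getD (py n m i 0) 0 ^ 2 ≤ 1 := by
    constructor
    · intro h i hi
      have := h _ (List.mem_flatMap.2 ⟨i, List.mem_range.2 hi, List.mem_singleton_self _⟩)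
      simp only [Chk.eval, bse_one] at this
      linarith
    · intro h C hC
      obtain ⟨i, hi, hC⟩ := List.mem_flatMap.1 hC
      rw [List.mem_singleton] at hC
      subst hC
      have := h i (List.mem_range.1 hi)
      simp only [Chk.eval, bse_one]
      linarith
  have h3 : 0 ≤ (⟨1, -1, 0, pz n m n, n + ng n m + 1, n + ng n m, 0⟩ : Chk ℝ).eval (bse a u b) ↔
      b ≤ (bse a u b).getD (pz n m n) 0 := by
    simp only [Chk.eval, bse_one, bse_b]
    constructor <;> intro h <;> linarith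
  rw [← h2, ← h3]
  simp only [sysV, List.mem_append, or_imp, forall_and, and_assoc, List.mem_singleton,
    forall_eq]

/-! ### the complement -/

/-- the checks for the complement inside the cube, with `ng n m + 3` guesses: `d` is the
difference of `b` and the sum, `v` is at least its inverse -/
def sysE (n m : ℕ) : List (Chk ℝ) :=
  base n m (n + (ng n m + 3) + 1) ++
  ((List.range n).flatMap fun i =>
    [⟨-1, 1, 0, py n m i 0, n + (ng n m + 3) + 1, n + (ng n m + 3) + 1, 0⟩]) ++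
  ((List.range n).flatMap fun i => (List.range m).flatMap fun j =>
    [⟨1, 0, 0, py n m i j, n + (ng n m + 3) + 1, 0, 0⟩]) ++
  eqs 1 (-1) (-1) (n + (ng n m + 3)) (n + (ng n m + 3) + 1) (pz n m n) (n + ng n m) ++
  [⟨1, 0, 0, n + (ng n m + 1), n + (ng n m + 3) + 1, 0, 0⟩,
    ⟨1, -1, 0, n + ng n m, n + (ng n m + 1), n + (ng n m + 3) + 1, 0⟩]

theorem sysE_lt (n m : ℕ) : ∀ C ∈ sysE n m, C.Lt (n + (ng n m + 3) + 2) := by
  intro C hC
  simp only [sysE, eqs, List.mem_append, List.mem_flatMap, List.mem_range, List.mem_cons,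
    List.not_mem_nil, or_false] at hC
  rcases hC with (((hC | ⟨i, hi, rfl⟩) | ⟨i, hi, j, hj, rfl⟩) | rfl | rfl) | rfl | rfl
  · exact base_lt (by omega) (by omega) C hC
  · have h1 := py_lt hi (Nat.zero_le m)
    unfold ng
    refine ⟨?_, ?_, ?_, ?_⟩ <;> dsimp only <;> omega
  · have h1 := py_lt hi hj.le
    unfold ng
    refine ⟨?_, ?_, ?_, ?_⟩ <;> dsimp only <;> omega
  all_goals
    unfold ng
    try unfold pz
    refine ⟨?_, ?_, ?_, ?_⟩ <;> dsimp only <;> omega

theorem sysE_length (n m : ℕ) : 4 * (sysE n m).length + 2 ≤ 30 * (m + 1) * (n + 1) := by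
  have h1 : (sysE n m).length = 3 * (m * n) + 5 * n + 6 := by
    unfold sysE eqs
    simp only [List.length_append, base_length, List.length_flatMap, List.length_cons,
      List.length_nil, List.map_const', List.length_range, List.sum_replicate, smul_eq_mul]
    ring
  rw [h1]
  nlinarith [Nat.zero_le (m * n)]

theorem sysE_iff {n m : ℕ} (a : Fin n → ℝ) (u : Fin (ng n m + 3) → ℝ) (b : ℝ) :
    (∀ C ∈ sysE n m, 0 ≤ C.eval (bse a u b)) ↔
      (∀ C ∈ base n m (n + (ng n m + 3) + 1), 0 ≤ C.eval (bse a u b)) ∧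
      (∀ i < n, (bse a u b).getD (py n m i 0) 0 ≤ 1) ∧
      (∀ i < n, ∀ j < m, 0 ≤ (bse a u b).getD (py n m i j) 0) ∧
      u ⟨ng n m, by omega⟩ = b - (bse a u b).getD (pz n m n) 0 ∧
      0 ≤ u ⟨ng n m + 1, by omega⟩ ∧
      0 ≤ u ⟨ng n m, by omega⟩ * u ⟨ng n m + 1, by omega⟩ - 1 := by
  have e0 : (bse a u b).getD (n + ng n m) 0 = u ⟨ng n m, by omega⟩ :=
    bse_y a u b ⟨ng n m, by omega⟩
  have e1 : (bse a u b).getD (n + (ng n m + 1)) 0 = u ⟨ng n m + 1, by omega⟩ :=
    bse_y a u b ⟨ng n m + 1, by omega⟩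
  have h2 : (∀ C ∈ (List.range n).flatMap fun i =>
      [(⟨-1, 1, 0, py n m i 0, n + (ng n m + 3) + 1, n + (ng n m + 3) + 1, 0⟩ : Chk ℝ)],
      0 ≤ C.eval (bse a u b)) ↔ ∀ i < n, (bse a u b).getD (py n m i 0) 0 ≤ 1 := by
    constructor
    · intro h i hi
      have := h _ (List.mem_flatMap.2 ⟨i, List.mem_range.2 hi, List.mem_singleton_self _⟩)
      simp only [Chk.eval, bse_one] at this
      linarith
    · intro h C hC
      obtain ⟨i, hi, hC⟩ := List.mem_flatMap.1 hC
      rw [List.mem_singleton] at hC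
      subst hC
      have := h i (List.mem_range.1 hi)
      simp only [Chk.eval, bse_one]
      linarith
  have h3 : (∀ C ∈ (List.range n).flatMap fun i => (List.range m).flatMap fun j =>
      [(⟨1, 0, 0, py n m i j, n + (ng n m + 3) + 1, 0, 0⟩ : Chk ℝ)],
      0 ≤ C.eval (bse a u b)) ↔ ∀ i < n, ∀ j < m, 0 ≤ (bse a u b).getD (py n m i j) 0 := by
    constructor
    · intro h i hi j hj
      have := h _ (List.mem_flatMap.2 ⟨i, List.mem_range.2 hi,
        List.mem_flatMap.2 ⟨j, List.mem_range.2 hj, List.mem_singleton_self _⟩⟩)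
      simp only [Chk.eval, bse_one] at this
      linarith
    · intro h C hC
      obtain ⟨i, hi, hC⟩ := List.mem_flatMap.1 hC
      obtain ⟨j, hj, hC⟩ := List.mem_flatMap.1 hC
      rw [List.mem_singleton] at hC
      subst hC
      have := h i (List.mem_range.1 hi) j (List.mem_range.1 hj)
      simp only [Chk.eval, bse_one]
      linarith
  have h4 : (∀ C ∈ eqs 1 (-1) (-1) (n + (ng n m + 3)) (n + (ng n m + 3) + 1) (pz n m n)
      (n + ng n m), 0 ≤ C.eval (bse a u b)) ↔
      u ⟨ng n m, by omega⟩ = b - (bse a u b).getD (pz n m n) 0 := by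
    rw [eqs_iff, bse_b, bse_one, e0]
    constructor <;> intro h <;> linarith
  have h5 : (∀ C ∈ [(⟨1, 0, 0, n + (ng n m + 1), n + (ng n m + 3) + 1, 0, 0⟩ : Chk ℝ),
      ⟨1, -1, 0, n + ng n m, n + (ng n m + 1), n + (ng n m + 3) + 1, 0⟩],
      0 ≤ C.eval (bse a u b)) ↔ 0 ≤ u ⟨ng n m + 1, by omega⟩ ∧
      0 ≤ u ⟨ng n m, by omega⟩ * u ⟨ng n m + 1, by omega⟩ - 1 := by
    simp only [List.mem_cons, List.not_mem_nil, or_false, forall_eq_or_imp, forall_eq,
      Chk.eval, bse_one, e0, e1]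
    constructor
    · rintro ⟨h1, h2⟩
      exact ⟨by linarith, by linarith⟩
    · rintro ⟨h1, h2⟩
      exact ⟨by linarith, by linarith⟩
  rw [← h2, ← h3, ← h4, ← h5]
  simp only [sysE, List.mem_append, or_imp, forall_and, and_assoc]

/-- the checks for the cube -/
def sysD (n N : ℕ) : List (Chk ℝ) :=
  (List.range n).flatMap fun i => [⟨-1, 1, 0, i, i, N + 1, 0⟩]

theorem sysD_lt {n N : ℕ} (h : n ≤ N) : ∀ C ∈ sysD n N, C.Lt (N + 2) := by
  intro C hC
  simp only [sysD, List.mem_flatMap, List.mem_range, List.mem_cons,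
    List.not_mem_nil, or_false] at hC
  obtain ⟨i, hi, rfl⟩ := hC
  refine ⟨?_, ?_, ?_, ?_⟩ <;> dsimp only <;> omega

theorem sysD_length (n N m : ℕ) : 4 * (sysD n N).length + 2 ≤ 30 * (m + 1) * (n + 1) := by
  have h1 : (sysD n N).length = n := by
    unfold sysD
    simp only [List.length_flatMap, List.length_cons,
      List.length_nil, List.map_const', List.length_range, List.sum_replicate, smul_eq_mul]
    ring
  rw [h1]
  nlinarith [Nat.zero_le (m * n)]

theorem sysD_iff {n k : ℕ} (a : Fin n → ℝ) (u : Fin k → ℝ) (b : ℝ) :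
    (∀ C ∈ sysD n (n + k), 0 ≤ C.eval (bse a u b)) ↔ ∀ i, -1 ≤ a i ∧ a i ≤ 1 := by
  constructor
  · intro h i
    have := h _ (List.mem_flatMap.2 ⟨i, List.mem_range.2 i.isLt, List.mem_singleton_self _⟩)
    simp only [Chk.eval, bse_one, bse_a] at this
    constructor <;> nlinarith
  · intro h C hC
    obtain ⟨i, hi, hC⟩ := List.mem_flatMap.1 hC
    rw [List.mem_singleton] at hC
    subst hC
    have h1 := h ⟨i, List.mem_range.1 hi⟩
    have h2 : (bse a u b).getD i 0 = a ⟨i, List.mem_range.1 hi⟩ :=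
      bse_a a u b ⟨i, List.mem_range.1 hi⟩
    simp only [Chk.eval, bse_one, h2]
    nlinarith [mul_nonneg (sub_nonneg.2 h1.2) (by linarith [h1.1] : (0 : ℝ) ≤ a ⟨i, List.mem_range.1 hi⟩ + 1)]

end RL

open RL

/-- a bound for the sums that a tested value uses -/
theorem SumsLe.uses {F K : Type} [Field F] [Field K] [Algebra F K] {P : K → Prop} {n t : ℕ}
    {T : CompTree F} (h : SumsLe n t T) (x : (Fin n → K) × K) (s : ℕ) (hs : UsesSum P T x s) :
    s ≤ t := by
  obtain ⟨k, i, a, -, -, rfl⟩ := hs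
  exact h _ _

/-- **`RootSum n m` is verified locally**: with `n (m + 2) + 1` guesses in `30 (m + 1) (n + 1)`
steps, and every sum depends on at most two additions. -/
theorem rootSum_local (n m : ℕ) : ∃ V : CompTree ℝ,
    SumsLe (n + (n * (m + 1) + (n + 1))) 2 V ∧
    Verifies (fun v : ℝ => 0 ≤ v) V (n * (m + 1) + (n + 1)) (30 * (m + 1) * (n + 1))
      (RootSum n m) := by
  show ∃ V : CompTree ℝ, SumsLe (n + ng n m) 2 V ∧
    Verifies (fun v : ℝ => 0 ≤ v) V (ng n m) (30 * (m + 1) * (n + 1)) (RootSum n m)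
  refine ⟨sysTree (n + ng n m) (sysV n m), sumsLe_sys (sysV_lt n m), fun x => ?_, fun x => ?_⟩
  · obtain ⟨b, _, h⟩ := sys_answer (fun v : ℝ => 0 ≤ v) (sysV_lt n m) x (sysV_length n m)
    exact ⟨b, h⟩
  · have hy : ∀ u : Fin (ng n m) → ℝ, (sysTree (n + ng n m) (sysV n m)
        ((sysTree (n + ng n m) (sysV n m)).run (fun v : ℝ => 0 ≤ v)
        (Fin.append x.1 u, x.2) (30 * (m + 1) * (n + 1))).hist = .answer true) ↔
        ∀ C ∈ sysV n m, 0 ≤ C.eval (bse x.1 u x.2) := by
      intro u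
      obtain ⟨b, hb, h⟩ := sys_answer (fun v : ℝ => 0 ≤ v) (sysV_lt n m)
        (Fin.append x.1 u, x.2) (sysV_length n m)
      rw [h]
      unfold bse
      rw [← hb]
      constructor
      · intro h
        injection h
      · rintro rfl
        rfl
    simp only [hy]
    constructor
    · rintro ⟨y, h1, h2⟩
      let y' : ℕ → ℝ := fun i => if h : i < n then y ⟨i, h⟩ else 0
      have hy' : ∀ i : Fin n, y' i = y i := fun i => dif_pos i.isLt
      refine ⟨fun l => gs n m y' l, (sysV_iff _ _ _).2 ?_⟩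
      obtain ⟨e1, e2, e3⟩ := base_gs (le_refl (ng n m)) x.1 x.2 y' (fun l => gs n m y' l)
        (fun l _ _ => rfl) (fun i => by rw [hy']; exact (h1 i).2.2)
      refine ⟨e3, fun i hi => ?_, ?_⟩
      · rw [e1 i hi 0 (by omega)]
        have := h1 ⟨i, hi⟩
        show y' i ^ 2 ≤ 1
        rw [show y' i = y ⟨i, hi⟩ from dif_pos hi]
        nlinarith [this.1, this.2.1]
      · rw [e2 n le_rfl, Finset.sum_range]
        simpa only [hy'] using h2
    · rintro ⟨u, hu⟩
      obtain ⟨h1, h2, h3⟩ := (sysV_iff _ _ _).1 hu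
      obtain ⟨e1, e2, e3⟩ := base_says (le_refl (ng n m)) x.1 x.2 u h1
      refine ⟨fun i => (bse x.1 u x.2).getD (py n m i 0) 0, fun i => ?_, ?_⟩
      · have h4 := h2 i i.isLt
        exact ⟨by nlinarith, by nlinarith, e2 i⟩
      · rw [← e3]
        exact h3

/-- **The complement of `RootSum n m` is verified locally**: with `n (m + 2) + 4` guesses in
`30 (m + 1) (n + 1)` steps, and every sum depends on at most two additions. -/
theorem rootSum_compl_local (n m : ℕ) : ∃ V : CompTree ℝ,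
    SumsLe (n + (n * (m + 1) + (n + 1) + 3)) 2 V ∧
    Verifies (fun v : ℝ => 0 ≤ v) V (n * (m + 1) + (n + 1) + 3) (30 * (m + 1) * (n + 1))
      (RootSum n m)ᶜ := by
  classical
  show ∃ V : CompTree ℝ, SumsLe (n + (ng n m + 3)) 2 V ∧
    Verifies (fun v : ℝ => 0 ≤ v) V (ng n m + 3) (30 * (m + 1) * (n + 1)) (RootSum n m)ᶜ
  set P : ℝ → Prop := fun v : ℝ => 0 ≤ v with hP
  set g := ng n m with hg
  let T : Bool → CompTree ℝ := fun o => if o then neg (sysTree (n + (g + 3)) (sysD n (n + (g + 3))))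
    else sysTree (n + (g + 3)) (sysE n m)
  obtain ⟨t, ht⟩ : ∃ t, 30 * (m + 1) * (n + 1) = t + 1 :=
    ⟨30 * (m + 1) * (n + 1) - 1, by
      have : 0 < 30 * (m + 1) * (n + 1) := by positivity
      omega⟩
  have hD := sysD_length n (n + (g + 3)) m
  have hE := sysE_length n m
  have hDl : ∀ C ∈ sysD n (n + (g + 3)), C.Lt (n + (g + 3) + 2) := sysD_lt (by omega)
  have hTt : ∀ x : (Fin (n + (g + 3)) → ℝ) × ℝ, ∃ b : Bool,
      (b = true ↔ ¬ ∀ C ∈ sysD n (n + (g + 3)), 0 ≤ C.eval (List.ofFn x.1 ++ [x.2] ++ [1])) ∧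
      T true ((T true).run P x t).hist = .answer b := by
    intro x
    obtain ⟨b, h1, h2⟩ := sys_answer P hDl x (t := t) (by omega)
    exact ⟨!b, by rw [← h1]; cases b <;> simp, neg_answer P _ x t h2⟩
  have hTf : ∀ x : (Fin (n + (g + 3)) → ℝ) × ℝ, ∃ b : Bool,
      (b = true ↔ ∀ C ∈ sysE n m, 0 ≤ C.eval (List.ofFn x.1 ++ [x.2] ++ [1])) ∧
      T false ((T false).run P x t).hist = .answer b := by
    intro x
    obtain ⟨b, h1, h2⟩ := sys_answer P (sysE_lt n m) x (t := t) (by omega)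
    exact ⟨b, h1, h2⟩
  refine ⟨KC.cond (n + (g + 2)) T, sumsLe_cond fun o => ?_, fun x => ?_, fun x => ?_⟩
  · cases o with
    | true => exact sumsLe_neg (sumsLe_sys hDl)
    | false => exact sumsLe_sys (sysE_lt n m)
  · rw [ht]
    set o : Bool := decide (P ((List.ofFn x.1 ++ [x.2]).getD (n + (g + 2)) 0)) with ho
    have ho' : o = true ↔ P ((List.ofFn x.1 ++ [x.2]).getD (n + (g + 2)) 0) := by
      rw [ho, decide_eq_true_iff]
    rw [cond_answer P _ T x ho']
    cases o with
    | true => obtain ⟨b, _, h⟩ := hTt x; exact ⟨b, h⟩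
    | false => obtain ⟨b, _, h⟩ := hTf x; exact ⟨b, h⟩
  · rw [ht, Set.mem_compl_iff, compl_iff]
    have hz : ∀ u : Fin (g + 3) → ℝ,
        (List.ofFn (Fin.append x.1 u) ++ [x.2]).getD (n + (g + 2)) 0 = u ⟨g + 2, by omega⟩ := by
      intro u
      have h1 := bse_y x.1 u x.2 ⟨g + 2, by omega⟩
      unfold bse at h1
      rw [getD_pre (by
        rw [List.length_append, List.length_ofFn, List.length_cons, List.length_nil]
        show n + (g + 2) < _
        omega)] at h1
      exact h1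
    have key : ∀ u : Fin (g + 3) → ℝ,
        (KC.cond (n + (g + 2)) T ((KC.cond (n + (g + 2)) T).run P
          (Fin.append x.1 u, x.2) (t + 1)).hist = .answer true) ↔
        ((0 ≤ u ⟨g + 2, by omega⟩ ∧ ¬ ∀ i, -1 ≤ x.1 i ∧ x.1 i ≤ 1) ∨
          (¬ 0 ≤ u ⟨g + 2, by omega⟩ ∧ ∀ C ∈ sysE n m, 0 ≤ C.eval (bse x.1 u x.2))) := by
      intro u
      set o : Bool := decide (P ((List.ofFn (Fin.append x.1 u) ++ [x.2]).getD (n + (g + 2)) 0))
        with ho
      have ho' : o = true ↔
          P ((List.ofFn (Fin.append x.1 u) ++ [x.2]).getD (n + (g + 2)) 0) := by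
        rw [ho, decide_eq_true_iff]
      rw [cond_answer P _ T (Fin.append x.1 u, x.2) ho']
      rw [hz u] at ho'
      change o = true ↔ 0 ≤ u ⟨g + 2, by omega⟩ at ho'
      rw [← ho']
      cases o with
      | true =>
        obtain ⟨b, hb, h⟩ := hTt (Fin.append x.1 u, x.2)
        rw [h]
        have h3 : (b = true) ↔ ¬ ∀ i, -1 ≤ x.1 i ∧ x.1 i ≤ 1 := by
          rw [hb]
          exact not_congr (sysD_iff x.1 u x.2)
        simp only [true_and, not_true_eq_false, false_and, or_false]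
        rw [← h3]
        constructor
        · intro h
          injection h
        · rintro rfl
          rfl
      | false =>
        obtain ⟨b, hb, h⟩ := hTf (Fin.append x.1 u, x.2)
        rw [h]
        have h3 : (b = true) ↔ ∀ C ∈ sysE n m, 0 ≤ C.eval (bse x.1 u x.2) := hb
        simp only [Bool.false_eq_true, false_and, not_false_eq_true, true_and, false_or]
        rw [← h3]
        constructor
        · intro h
          injection h
        · rintro rfl
          rfl
    simp only [key]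
    constructor
    · rintro (⟨i, hi⟩ | ⟨y, h1, h2⟩)
      · exact ⟨fun _ => 0, Or.inl ⟨le_rfl, fun h => hi (h i)⟩⟩
      · have hs : 0 < x.2 - ∑ i, y i := by linarith
        let y' : ℕ → ℝ := fun i => if h : i < n then y ⟨i, h⟩ else 0
        have hy' : ∀ i : Fin n, y' i = y i := fun i => dif_pos i.isLt
        let u : Fin (g + 3) → ℝ := fun l => if (l : ℕ) < g then gs n m y' l else
          if (l : ℕ) = g then x.2 - ∑ i, y i else
          if (l : ℕ) = g + 1 then (x.2 - ∑ i, y i)⁻¹ else -1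
        have u0 : u ⟨g, by omega⟩ = x.2 - ∑ i, y i := by
          show (if g < g then _ else if g = g then _ else _) = _
          rw [if_neg (lt_irrefl g), if_pos rfl]
        have u1 : u ⟨g + 1, by omega⟩ = (x.2 - ∑ i, y i)⁻¹ := by
          show (if g + 1 < g then _ else if g + 1 = g then _ else
            if g + 1 = g + 1 then _ else _) = _
          rw [if_neg (by omega), if_neg (by omega), if_pos rfl]
        have u2 : u ⟨g + 2, by omega⟩ = -1 := by
          show (if g + 2 < g then _ else if g + 2 = g then _ else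
            if g + 2 = g + 1 then _ else _) = _
          rw [if_neg (by omega), if_neg (by omega), if_neg (by omega)]
        obtain ⟨e1, e2, e3⟩ := base_gs (m := m) (k := g + 3) (by omega) x.1 x.2 y' u
          (fun l hl hl' => if_pos hl') (fun i => by rw [hy']; exact (h1 i).2.2)
        have e4 : (bse x.1 u x.2).getD (pz n m n) 0 = ∑ i, y i := by
          rw [e2 n le_rfl, Finset.sum_range]
          exact Finset.sum_congr rfl fun i _ => hy' i
        refine ⟨u, Or.inr ⟨by rw [u2]; norm_num, (sysE_iff _ _ _).2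
          ⟨e3, fun i hi => ?_, fun i hi j hj => ?_, ?_, ?_, ?_⟩⟩⟩
        · rw [e1 i hi 0 (by omega)]
          show y' i ≤ 1
          rw [show y' i = y ⟨i, hi⟩ from dif_pos hi]
          exact (h1 ⟨i, hi⟩).1
        · rw [e1 i hi j hj.le, show y' i = y ⟨i, hi⟩ from dif_pos hi]
          exact (h1 ⟨i, hi⟩).2.1 j hj
        · rw [e4]
          exact u0
        · show 0 ≤ u ⟨g + 1, by omega⟩
          rw [u1]
          positivity
        · show 0 ≤ u ⟨g, by omega⟩ * u ⟨g + 1, by omega⟩ - 1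
          rw [u0, u1, mul_inv_cancel₀ hs.ne']
          norm_num
    · rintro ⟨u, ⟨_, h⟩ | ⟨_, hu⟩⟩
      · left
        by_contra hc
        exact h fun i => by
          by_contra hi
          exact hc ⟨i, hi⟩
      · right
        obtain ⟨h1, h2, h3, h4, h5, h6⟩ := (sysE_iff _ _ _).1 hu
        obtain ⟨e1, e2, e3⟩ := base_says (m := m) (k := g + 3) (by omega) x.1 x.2 u h1
        refine ⟨fun i => (bse x.1 u x.2).getD (py n m i 0) 0, fun i => ?_, ?_⟩
        · refine ⟨h2 i i.isLt, fun j hj => ?_, e2 i⟩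
          rw [← e1 i i.isLt j hj.le]
          exact h3 i i.isLt j hj
        · by_contra hc
          push Not at hc
          rw [e3] at h4
          have h7 : u ⟨ng n m, by omega⟩ * u ⟨ng n m + 1, by omega⟩ ≤ 0 :=
            mul_nonpos_of_nonpos_of_nonneg (by rw [h4]; linarith) h5
          linarith

end Pool.Agent.Lib.MP_641cb6_lc.KD
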