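import Pool.Agent.Lib.MP_641cb6_lc.KC.Defs
import Pool.Agent.Lib.MP_641cb6_lc.KH.Defs

/-!
# Subchains
-/

set_option autoImplicit false

namespace Pool.Agent.Lib.MP_641cb6_lc.KD

open Finset

/-- a product of powers with few nontrivial exponents -/
theorem prod_sub {M : Type} [CommMonoid M] (φ : ℕ → M) (α : ℕ → ℕ) (f : ℕ → ℕ) {k l : ℕ}
    (hinj : Set.InjOn f (range l : Finset ℕ)) (hlt : ∀ j < l, f j < k)
    (hsup : ∀ j < k, α j ≠ 0 → ∃ j' < l, f j' = j) :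
    ∏ j ∈ range k, φ j ^ α j = ∏ j ∈ range l, φ (f j) ^ α (f j) := by
  classical
  rw [← Finset.prod_image (f := fun j => φ j ^ α j) hinj]
  symm
  apply Finset.prod_subset
  · intro j hj
    obtain ⟨j', hj', rfl⟩ := mem_image.1 hj
    exact mem_range.2 (hlt j' (mem_range.1 hj'))
  · intro j hj hj'
    have h0 : α j = 0 := by
      by_contra hne
      obtain ⟨j', hj'', rfl⟩ := hsup j (mem_range.1 hj) hne
      exact hj' (mem_image_of_mem _ (mem_range.2 hj''))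
    rw [h0, pow_zero]

/-- the enumeration of `{0} ∪ (D + 1)` -/
noncomputable def en (D : Finset ℕ) : ℕ → ℕ
  | 0 => 0
  | j + 1 => if h : j < D.card then D.orderEmbOfFin rfl ⟨j, h⟩ + 1 else 0

theorem en_succ (D : Finset ℕ) {j : ℕ} (h : j < D.card) :
    en D (j + 1) = D.orderEmbOfFin rfl ⟨j, h⟩ + 1 := by
  rw [en, dif_pos h]

theorem en_lt (D : Finset ℕ) {i j : ℕ} (hij : i < j) (hj : j ≤ D.card) : en D i < en D j := by
  obtain ⟨j, rfl⟩ : ∃ j', j = j' + 1 := ⟨j - 1, by omega⟩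
  rw [en_succ D (by omega)]
  cases i with
  | zero => rw [en]; omega
  | succ i =>
    rw [en_succ D (by omega)]
    have : D.orderEmbOfFin rfl ⟨i, by omega⟩ < D.orderEmbOfFin rfl ⟨j, by omega⟩ :=
      (D.orderEmbOfFin rfl).strictMono (by simpa using (by omega : i < j))
    omega

theorem en_injOn (D : Finset ℕ) {l : ℕ} (hl : l ≤ D.card + 1) :
    Set.InjOn (en D) (range l : Finset ℕ) := by
  intro i hi j hj hij
  have hi' := mem_range.1 (mem_coe.1 hi)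
  have hj' := mem_range.1 (mem_coe.1 hj)
  rcases lt_trichotomy i j with h | h | h
  · exact absurd hij (en_lt D h (by omega)).ne
  · exact h
  · exact absurd hij.symm (en_lt D h (by omega)).ne

theorem en_mem (D : Finset ℕ) {j : ℕ} (h1 : 1 ≤ j) (h : j ≤ D.card) : en D j - 1 ∈ D := by
  obtain ⟨j, rfl⟩ : ∃ j', j = j' + 1 := ⟨j - 1, by omega⟩
  rw [en_succ D (by omega), Nat.add_sub_cancel]
  exact D.orderEmbOfFin_mem rfl _

theorem en_pos (D : Finset ℕ) {j : ℕ} (h1 : 1 ≤ j) (h : j ≤ D.card) : 1 ≤ en D j := by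
  have := en_lt D (i := 0) (j := j) (by omega) h
  omega

theorem en_surj (D : Finset ℕ) {a : ℕ} (ha : a ∈ D) : ∃ j, 1 ≤ j ∧ j ≤ D.card ∧ en D j = a + 1 := by
  have h1 : a ∈ Set.range (D.orderEmbOfFin rfl) := by
    rw [Finset.range_orderEmbOfFin]
    exact mem_coe.2 ha
  obtain ⟨j, hj⟩ := h1
  refine ⟨j + 1, by omega, j.2, ?_⟩
  rw [en_succ D j.2, hj]

/-- an index below `en D l` whose predecessor is in `D` is an `en D j` with `j < l` -/
theorem en_below (D : Finset ℕ) {l j : ℕ} (hl : l ≤ D.card) (hj : j < en D l)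
    (h : 1 ≤ j → j - 1 ∈ D) : ∃ j' < l, en D j' = j := by
  rcases Nat.eq_zero_or_pos j with h0 | h0
  · subst h0
    refine ⟨0, ?_, rfl⟩
    by_contra hl0
    obtain rfl : l = 0 := by omega
    rw [en] at hj
    omega
  · obtain ⟨j', h1, h2, h3⟩ := en_surj D (h h0)
    refine ⟨j', ?_, by omega⟩
    by_contra hcon
    rcases Nat.lt_or_ge l j' with h4 | h4
    · have := en_lt D h4 h2
      omega
    · have : j' = l := by omega
      subst this
      omega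

/-- subchains over `ℂ` -/
theorem subC {φ : ℕ → KC.P2} {t : ℕ} (E : ℕ → Finset ℕ) (h0 : φ 0 = Polynomial.X)
    (h : ∀ k < t, ∃ (K K' : Polynomial ℂ) (α α' : ℕ → ℕ),
      φ (k + 1) = KC.mon φ (k + 1) K α + KC.mon φ (k + 1) K' α' ∧
        (∀ j, 1 ≤ j → α j ≠ 0 → j - 1 ∈ E k) ∧ (∀ j, 1 ≤ j → α' j ≠ 0 → j - 1 ∈ E k))
    (D : Finset ℕ) (hD : ∀ a ∈ D, a < t) (hcl : ∀ a ∈ D, E a ⊆ D) :
    KC.IsCChain (fun j => φ (en D j)) D.card := by
  refine ⟨h0, fun l hl hl' => ?_⟩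
  have hm := en_mem D hl hl'
  have hp := en_pos D hl hl'
  obtain ⟨k, hk⟩ : ∃ k, en D l = k + 1 := ⟨en D l - 1, by omega⟩
  rw [hk, Nat.add_sub_cancel] at hm
  obtain ⟨K, K', α, α', he, h1, h2⟩ := h k (hD k hm)
  refine ⟨K, K', fun j => α (en D j), fun j => α' (en D j), ?_⟩
  have key : ∀ (K : Polynomial ℂ) (α : ℕ → ℕ), (∀ j, 1 ≤ j → α j ≠ 0 → j - 1 ∈ E k) →
      KC.mon φ (k + 1) K α = KC.mon (fun j => φ (en D j)) l K (fun j => α (en D j)) := by
    intro K α hα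
    unfold KC.mon
    congr 1
    refine prod_sub φ α (en D) (en_injOn D (by omega)) (fun j hj => ?_) fun j hj hne => ?_
    · have := en_lt D hj hl'
      omega
    · refine en_below D hl' (by omega) fun h3 => hcl k hm (hα j h3 hne)
  show φ (en D l) = _
  rw [hk, he, key K α h1, key K' α' h2]

/-- subchains over `ℝ` -/
theorem subR {φ : ℕ → Polynomial ℝ} {t : ℕ} (E : ℕ → Finset ℕ) (h0 : φ 0 = Polynomial.X)
    (h : ∀ k < t, ∃ (κ κ' : ℝ) (α α' : ℕ → ℕ),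
      φ (k + 1) = Polynomial.C κ * ∏ j ∈ range (k + 1), φ j ^ α j +
        Polynomial.C κ' * ∏ j ∈ range (k + 1), φ j ^ α' j ∧
        (∀ j, 1 ≤ j → α j ≠ 0 → j - 1 ∈ E k) ∧ (∀ j, 1 ≤ j → α' j ≠ 0 → j - 1 ∈ E k))
    (D : Finset ℕ) (hD : ∀ a ∈ D, a < t) (hcl : ∀ a ∈ D, E a ⊆ D) :
    KH.IsChain (fun j => φ (en D j)) D.card := by
  refine ⟨h0, fun l hl hl' => ?_⟩
  have hm := en_mem D hl hl'
  have hp := en_pos D hl hl'
  obtain ⟨k, hk⟩ : ∃ k, en D l = k + 1 := ⟨en D l - 1, by omega⟩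
  rw [hk, Nat.add_sub_cancel] at hm
  obtain ⟨κ, κ', α, α', he, h1, h2⟩ := h k (hD k hm)
  refine ⟨κ, κ', fun j => α (en D j), fun j => α' (en D j), ?_⟩
  have key : ∀ (α : ℕ → ℕ), (∀ j, 1 ≤ j → α j ≠ 0 → j - 1 ∈ E k) →
      ∏ j ∈ range (k + 1), φ j ^ α j = ∏ j ∈ range l, φ (en D j) ^ α (en D j) := by
    intro α hα
    refine prod_sub φ α (en D) (en_injOn D (by omega)) (fun j hj => ?_) fun j hj hne => ?_
    · have := en_lt D hj hl'
      omega
    · refine en_below D hl' (by omega) fun h3 => hcl k hm (hα j h3 hne)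
  show φ (en D l) = _
  rw [hk, he, key α h1, key α' h2]

end Pool.Agent.Lib.MP_641cb6_lc.KD
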