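import Pool.Agent.Lib.MP_641cb6_lc.KD.ProgDeps
import Pool.Agent.Lib.MP_641cb6_lc.KC.TowerUpper

/-!
# The sums of the verification of `TowerSet m` depend on at most two additions
-/

set_option autoImplicit false

namespace Pool.Agent.Lib.MP_641cb6_lc.KD

open Pool.Agent.Lib.MP_641cb6_lc.KH (CompTree Instr)
open Pool.Agent.Lib.MP_641cb6_lc.KC (prog Verifies TowerSet)
open Pool.Agent.Lib.MP_641cb6_lc.KC.TU

theorem blk_deps {S A : List (Finset ℕ)} {a m j : ℕ} (ha : A.length = a) (hm : m + 4 ≤ a)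
    (h0 : ∀ i < m + 4, A.getD i ∅ = ∅) (hj : j < m) :
    (⟨S, A ++ [∅, ∅]⟩ : Deps).nexts (blk m j a) =
      ⟨S ++ [{S.length}, {S.length + 1, S.length}],
        (A ++ [∅, ∅, ∅, ∅, ∅, {S.length}, {S.length}, {S.length + 1, S.length}]) ++ [∅, ∅]⟩ := by
  have hix : ix j < m + 4 := by
    cases j with
    | zero => exact Nat.succ_pos _
    | succ j => show j + 2 < _; omega
  have e1 : ∀ B : List (Finset ℕ), (A ++ B).getD (ix j) ∅ = ∅ := fun B => by
    rw [getD_pre (by omega), h0 _ hix]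
  have e2 : ∀ B : List (Finset ℕ), (A ++ B).getD (j + 2) ∅ = ∅ := fun B => by
    rw [getD_pre (by omega), h0 _ (by omega)]
  have e3 : ∀ B : List (Finset ℕ), (A ++ B).getD (m + 3) ∅ = ∅ := fun B => by
    rw [getD_pre (by omega), h0 _ (by omega)]
  unfold Deps.nexts blk
  simp only [List.foldl_cons, List.foldl_nil, Deps.next, Deps.val, List.append_assoc,
    List.cons_append, List.nil_append, getD_off ha, getD_off0 ha, e1, e2, e3]
  simp

theorem blks_deps {m : ℕ} {A : List (Finset ℕ)} (hA : A.length = m + 4)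
    (h0 : ∀ i < m + 4, A.getD i ∅ = ∅) (j : ℕ) (hj : j ≤ m) :
    ∃ S M : List (Finset ℕ), M.length = 8 * j ∧ (∀ B ∈ S, B.card ≤ 2) ∧
      (⟨[], A ++ [∅, ∅]⟩ : Deps).nexts (blks m j) = ⟨S, (A ++ M) ++ [∅, ∅]⟩ := by
  induction j with
  | zero =>
    refine ⟨[], [], rfl, ?_, ?_⟩
    · intro B hB
      exact absurd hB List.not_mem_nil
    · simp [blks, Deps.nexts]
  | succ j ih =>
    obtain ⟨S, M, hM, hS, he⟩ := ih (by omega)
    have hlen : (A ++ M).length = m + 4 + 8 * j := by rw [List.length_append, hA, hM]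
    refine ⟨S ++ [{S.length}, {S.length + 1, S.length}],
      M ++ [∅, ∅, ∅, ∅, ∅, {S.length}, {S.length}, {S.length + 1, S.length}], ?_, ?_, ?_⟩
    · simp only [List.length_append, hM, List.length_cons, List.length_nil]
      omega
    · intro B hB
      rw [List.mem_append] at hB
      rcases hB with hB | hB
      · exact hS B hB
      · simp only [List.mem_cons, List.not_mem_nil, or_false] at hB
        rcases hB with rfl | rfl
        · simp
        · exact Finset.card_le_two
    · rw [blks, Deps.nexts_append, he, blk_deps hlen (by omega) (fun i hi => ?_) (by omega)]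
      · simp only [List.append_assoc]
      · rw [getD_pre (by omega), h0 i hi]

theorem prg_deps (m : ℕ) :
    ((⟨[], List.replicate (2 + m + 1) ∅⟩ : Deps).nexts (prg m)).Le 2 := by
  have hA : (List.replicate (2 + m + 1) (∅ : Finset ℕ) ++ [∅]).length = m + 4 := by
    simp only [List.length_append, List.length_replicate, List.length_cons, List.length_nil]
    omega
  have hA0 : ∀ i < m + 4, (List.replicate (2 + m + 1) (∅ : Finset ℕ) ++ [∅]).getD i ∅ = ∅ := by
    intro i hi
    rw [← List.replicate_succ', List.getD_replicate _ (by omega)]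
  obtain ⟨S, M, hM, hS, he⟩ := blks_deps hA hA0 m le_rfl
  have p1 : (⟨[], List.replicate (2 + m + 1) ∅⟩ : Deps).nexts
      ([.const 1, .const 1, .mul 1 (m + 3)] : List (Instr ℂ)) =
      ⟨[], (List.replicate (2 + m + 1) ∅ ++ [∅]) ++ [∅, ∅]⟩ := by
    have e1 : ∀ B : List (Finset ℕ),
        ((List.replicate (2 + m + 1) (∅ : Finset ℕ) ++ [∅]) ++ B).getD 1 ∅ = ∅ := fun B => by
      rw [getD_pre (by omega), hA0 _ (by omega)]
    have e2 : ∀ B : List (Finset ℕ),
        ((List.replicate (2 + m + 1) (∅ : Finset ℕ) ++ [∅]) ++ B).getD (m + 3) ∅ = ∅ := fun B => by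
      rw [getD_pre (by omega), hA0 _ (by omega)]
    unfold Deps.nexts
    simp only [List.foldl_cons, List.foldl_nil, Deps.next, Deps.val]
    rw [e1, e2]
    simp
  have hlen : ((List.replicate (2 + m + 1) (∅ : Finset ℕ) ++ [∅]) ++ M).length =
      m + 4 + 8 * m := by rw [List.length_append, hA, hM]
  rw [prg, Deps.nexts_append, Deps.nexts_append, p1, he]
  intro B hB
  have e3 : (((List.replicate (2 + m + 1) (∅ : Finset ℕ) ++ [∅]) ++ M) ++ [∅, ∅]).getD
      (m + 2) ∅ = ∅ := by
    rw [getD_pre (by omega), getD_pre (by omega), hA0 _ (by omega)]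
  have e4 : (((List.replicate (2 + m + 1) (∅ : Finset ℕ) ++ [∅]) ++ M) ++ [∅, ∅]).getD
      (m + 4 + 8 * m) ∅ = ∅ := by
    rw [getD_off0 hlen]
    rfl
  simp only [Deps.nexts, List.foldl_cons, List.foldl_nil, Deps.next, Deps.val, e3, e4,
    List.mem_append, List.mem_cons, List.not_mem_nil, or_false] at hB
  rcases hB with hB | rfl
  · exact hS B hB
  · simp

theorem tower_iff (m : ℕ) (x : (Fin 2 → ℂ) × ℂ) : x ∈ TowerSet m ↔ ∃ y : Fin m → ℂ,
    prog (prg m) ((prog (prg m)).run (fun v : ℂ => v = 0) (Fin.append x.1 y, x.2)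
      (9 * m + 5)).hist = .answer true := by
  have hy : ∀ y : Fin m → ℂ,
      (prog (prg m) ((prog (prg m)).run (fun v : ℂ => v = 0) (Fin.append x.1 y, x.2)
        (9 * m + 5)).hist = .answer true) ↔
      ((∀ i < m, sq (x.1 0) y i = sq (x.1 0) y (i + 1) *
        (sq (x.1 0) y (i + 1) + x.1 1 ^ 8 ^ (i + 1))) ∧
      x.2 = ∏ i ∈ Finset.range m, sq (x.1 0) y (i + 1)) := by
    intro y
    obtain ⟨b, hb, hb', _⟩ := KC.prog_answer (fun v : ℂ => v = 0) (prg_noAns m)
      (Fin.append x.1 y, x.2)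
    rw [prg_length] at hb'
    rw [hb', ← prg_spec, ← hb]
    constructor
    · intro h
      injection h
    · rintro rfl
      rfl
  constructor
  · rintro ⟨y, h0, h1, h2⟩
    refine ⟨fun i => y (i + 1), (hy _).2 ?_⟩
    have hs : ∀ i ≤ m, sq (x.1 0) (fun i : Fin m => y (i + 1)) i = y i := by
      intro i hi
      cases i with
      | zero => exact h0.symm
      | succ i =>
        show (if h : i < m then y (i + 1) else 0) = _
        rw [dif_pos (by omega)]
    refine ⟨fun i hi => ?_, ?_⟩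
    · rw [hs i (by omega), hs (i + 1) (by omega)]
      exact h1 i hi
    · rw [h2]
      refine Finset.prod_congr rfl fun i hi => ?_
      rw [hs (i + 1) (by have := Finset.mem_range.1 hi; omega)]
  · rintro ⟨y, h⟩
    obtain ⟨h1, h2⟩ := (hy y).1 h
    exact ⟨sq (x.1 0) y, rfl, h1, h2⟩

/-- `TowerSet m` is verified with `m` guesses in `9 m + 5` steps; all sums depend on at most two
additions. -/
theorem tower_verifies (m : ℕ) : ∃ V : CompTree ℂ,
    Verifies (fun v : ℂ => v = 0) V m (9 * m + 5) (TowerSet m) ∧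
    ∀ (x : (Fin (2 + m) → ℂ) × ℂ) (s : ℕ), UsesSum (fun v : ℂ => v = 0) V x s → s ≤ 2 := by
  refine ⟨prog (prg m), ⟨fun x => ?_, fun x => ?_⟩, fun x s hs => hs.le (le_of_prog (prg_deps m))⟩
  · obtain ⟨b, _, hb', _⟩ := KC.prog_answer (fun v : ℂ => v = 0) (prg_noAns m) x
    rw [prg_length] at hb'
    exact ⟨b, hb'⟩
  · exact tower_iff m x

end Pool.Agent.Lib.MP_641cb6_lc.KD
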